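import Pool.Agent.UL4.Stmts

/-!
# Squad UL4, row PCK (helper74): two low points or a high window
-/

set_option autoImplicit false

namespace Pool.Agent.UL4.H74

open MeasureTheory Set Pool.Agent.UL3 Pool.Agent.UL4

theorem pck : PckStmt := by
  intro F x r hF hc hx hx1
  have hcl : IsClosed {t ∈ Icc (0 : ℝ) 1 | r ≤ F t} :=
    hF.preimage_isClosed_of_isClosed isClosed_Icc isClosed_Ici
  have hcp : IsCompact {t ∈ Icc (0 : ℝ) 1 | r ≤ F t} :=
    isCompact_Icc.of_isClosed_subset hcl fun t ht => ht.1
  rcases Set.eq_empty_or_nonempty {t ∈ Icc (0 : ℝ) 1 | r ≤ F t} with h0 | hne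
  · have hlt : ∀ t ∈ Icc (0 : ℝ) 1, F t < r := by
      intro t ht
      by_contra hcon
      push Not at hcon
      have : t ∈ {t ∈ Icc (0 : ℝ) 1 | r ≤ F t} := ⟨ht, hcon⟩
      rw [h0] at this
      exact this
    exact Or.inl ⟨x / 2, by linarith, by linarith, hlt _ ⟨by linarith, by linarith⟩,
      fun h => hlt _ ⟨by linarith, h⟩⟩
  · obtain ⟨a, ha, ha'⟩ := hcp.exists_isLeast hne
    obtain ⟨b, hb, hb'⟩ := hcp.exists_isGreatest hne
    have ha0 := ha.1.1
    have hb1 := hb.1.2
    have hab : a ≤ b := ha' hb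
    have hin : ∀ t ∈ Icc a b, r ≤ F t := by
      have h1 : Convex ℝ {t ∈ Icc (0 : ℝ) 1 | r ≤ F t} := hc.convex_ge r
      intro t ht
      have h2 := h1.ordConnected.out ha hb ht
      exact h2.2
    have hlo : ∀ t, 0 ≤ t → t ≤ 1 → t < a → F t < r := by
      intro t h1 h2 h3
      by_contra hcon
      push Not at hcon
      have := ha' (show t ∈ {t ∈ Icc (0 : ℝ) 1 | r ≤ F t} from ⟨⟨h1, h2⟩, hcon⟩)
      linarith
    have hhi : ∀ t, 0 ≤ t → t ≤ 1 → b < t → F t < r := by
      intro t h1 h2 h3
      by_contra hcon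
      push Not at hcon
      have := hb' (show t ∈ {t ∈ Icc (0 : ℝ) 1 | r ≤ F t} from ⟨⟨h1, h2⟩, hcon⟩)
      linarith
    by_cases hw : x ≤ b - a
    · exact Or.inr ⟨a, ha0, by linarith, fun t ht => hin t ⟨ht.1, by linarith [ht.2]⟩⟩
    · push Not at hw
      refine Or.inl ?_
      rcases ha0.eq_or_lt with h0 | h0
      · rw [← h0] at hw hab
        refine ⟨(b + x) / 2, by linarith, by linarith, hhi _ (by linarith) (by linarith)
          (by linarith), fun h => hhi _ (by linarith) h (by linarith)⟩
      · by_cases h1 : b - x < x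
        · have h2 : max 0 (b - x) < min a x :=
            max_lt (lt_min h0 (by linarith)) (lt_min (by linarith) h1)
          obtain ⟨s, hs1, hs2⟩ := exists_between h2
          have h3 := (max_lt_iff.1 hs1)
          have h4 := (lt_min_iff.1 hs2)
          refine ⟨s, h3.1, h4.2, hlo s h3.1.le (by linarith) h4.1, fun h =>
            hhi _ (by linarith) h (by linarith [h3.2])⟩
        · push Not at h1
          have hx' : x = 1 / 2 := by linarith
          have hb'' : b = 1 := by linarith
          rw [hx', hb''] at hw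
          refine ⟨(a - 1 / 2) / 2, by linarith, by linarith, hlo _ (by linarith) (by linarith)
            (by linarith), fun h => hlo _ (by linarith) h (by linarith)⟩

end Pool.Agent.UL4.H74
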